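import Pool.Agent.helper99.ZP.Spec

set_option autoImplicit false
set_option linter.unusedVariables false

/-! # ZP (MP_3c0a64_an), row GA2: content zero implies measure zero -/

namespace Pool.Agent.ZP

open Finset
open Pool.Agent.helper32.Cant
open Pool.Agent.ZR
open scoped ENNReal

theorem GA2_log3 : 1 < Real.log 3 := by
  rw [Real.lt_log_iff_exp_lt (by norm_num)]
  exact lt_trans Real.exp_one_lt_d9 (by norm_num)

theorem GA2_eps (C₀ : ℝ) (n : ℕ) :
    ∃ ε : ℝ≥0∞, 0 < ε ∧ ε ≤ (n : ℝ≥0∞)⁻¹ ∧ ∀ j < n, ε ≤ psF C₀ j := by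
  have h : ∀ m : ℕ, ∃ ε : ℝ≥0∞, 0 < ε ∧ ∀ j < m, ε ≤ psF C₀ j := by
    intro m
    induction m with
    | zero => exact ⟨1, one_pos, fun j hj => absurd hj (Nat.not_lt_zero j)⟩
    | succ m ih =>
      obtain ⟨ε, h1, h2⟩ := ih
      refine ⟨min ε (psF C₀ m), lt_min h1 ?_, fun j hj => ?_⟩
      · unfold psF pst psi
        rw [ENNReal.ofReal_pos]
        positivity
      · rcases Nat.lt_succ_iff_lt_or_eq.1 hj with h | h
        · exact le_trans (min_le_left _ _) (h2 j h)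
        · rw [h]
          exact min_le_right _ _
  obtain ⟨ε, h1, h2⟩ := h n
  refine ⟨min ε (n : ℝ≥0∞)⁻¹, lt_min h1 ?_, min_le_right _ _, fun j hj =>
    le_trans (min_le_left _ _) (h2 j hj)⟩
  exact ENNReal.inv_pos.2 (ENNReal.natCast_ne_top n)

/-- the gauge at the diameter of a cell -/
theorem GA2_gp (C₀ C lam : ℝ) (j : ℕ) (hC₀ : 0 < C₀) (hC : C₀ < C) (hlam : 0 < lam) (hj : 1 ≤ j)
    (h : Real.log lam ≤ j * (Real.log 3 - 1)) (h' : Real.log lam ≤ (C - C₀) * Real.log j ^ 3) :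
    gp C (ENNReal.ofReal (lam / 3 ^ j)) ≤ psF C₀ j := by
  unfold gp psF pst psi
  refine ENNReal.ofReal_le_ofReal ?_
  rw [ENNReal.toReal_ofReal (by positivity)]
  have h1 : Real.log (1 / (lam / 3 ^ j)) = j * Real.log 3 - Real.log lam := by
    rw [one_div_div, Real.log_div (by positivity) hlam.ne', Real.log_pow]
  have hj1 : (1 : ℝ) ≤ j := by exact_mod_cast hj
  have h2 : (j : ℝ) ≤ j * Real.log 3 - Real.log lam := by nlinarith
  rw [h1]
  have h3 : 0 ≤ Real.log j := Real.log_nonneg hj1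
  have h4 : Real.log j ≤ Real.log (j * Real.log 3 - Real.log lam) :=
    Real.log_le_log (by linarith) h2
  have h5 : Real.log j ^ 3 ≤ Real.log (j * Real.log 3 - Real.log lam) ^ 3 :=
    pow_le_pow_left₀ h3 h4 3
  have h6 : 0 ≤ Real.log j ^ 3 := by positivity
  rw [div_mul_eq_mul_div]
  apply div_le_div_of_nonneg_right _ (by positivity)
  have h7 : lam = Real.exp (Real.log lam) := (Real.exp_log hlam).symm
  calc lam * Real.exp (-(C * Real.log (j * Real.log 3 - Real.log lam) ^ 3))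
      = Real.exp (Real.log lam + -(C * Real.log (j * Real.log 3 - Real.log lam) ^ 3)) := by
        rw [Real.exp_add, Real.exp_log hlam]
    _ ≤ Real.exp (-(C₀ * Real.log j ^ 3)) := by
        apply Real.exp_le_exp.2
        have h8 : C * Real.log j ^ 3 ≤ C * Real.log (j * Real.log 3 - Real.log lam) ^ 3 :=
          mul_le_mul_of_nonneg_left h5 (by linarith)
        linarith

/-- the diameter of a product -/
theorem GA2_prod (a b c d e : ℝ) (he : 0 < e) (h1 : b - a = e) (h2 : d - c = e) :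
    Metric.ediam (Set.Ico a b ×ˢ Set.Ico c d) = ENNReal.ofReal e := by
  apply le_antisymm
  · apply Metric.ediam_le
    intro x hx y hy
    rw [Prod.edist_eq]
    apply max_le
    · have h3 := Metric.edist_le_ediam_of_mem hx.1 hy.1
      rwa [Real.ediam_Ico, h1] at h3
    · have h3 := Metric.edist_le_ediam_of_mem hx.2 hy.2
      rwa [Real.ediam_Ico, h2] at h3
  · have h3 : Prod.fst '' (Set.Ico a b ×ˢ Set.Ico c d) = Set.Ico a b :=
      Set.fst_image_prod _ (Set.nonempty_Ico.2 (by linarith))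
    have h4 : Metric.ediam (Prod.fst '' (Set.Ico a b ×ˢ Set.Ico c d)) ≤
        Metric.ediam (Set.Ico a b ×ˢ Set.Ico c d) := by
      have := (LipschitzWith.prod_fst (α := ℝ) (β := ℝ)).ediam_image_le (Set.Ico a b ×ˢ Set.Ico c d)
      simpa using this
    rw [h3, Real.ediam_Ico, h1] at h4
    exact h4

/-- the image of a square -/
noncomputable def GA2_sq (o lam : ℝ) (c : ℕ × ℤ × ℤ) : Set (ℝ × ℝ) :=
  Set.Ico (o + lam * (c.2.1 / 3 ^ c.1)) (o + lam * ((c.2.1 + 1) / 3 ^ c.1)) ×ˢ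
    Set.Ico (lam * (1 + c.2.2 / 3 ^ c.1)) (lam * (1 + (c.2.2 + 1) / 3 ^ c.1))

theorem GA2_diam (o lam : ℝ) (hlam : 0 < lam) (c : ℕ × ℤ × ℤ) :
    Metric.ediam (GA2_sq o lam c) = ENNReal.ofReal (lam / 3 ^ c.1) := by
  unfold GA2_sq
  apply GA2_prod
  · positivity
  · ring
  · ring

theorem GA2_fl (lam : ℝ) (hlam : 0 < lam) (j : ℕ) (q : ℤ) (t : ℝ) (h : ⌊(3 : ℝ) ^ j * t⌋ = q) :
    lam * ((q : ℝ) / 3 ^ j) ≤ lam * t ∧ lam * t < lam * (((q : ℝ) + 1) / 3 ^ j) := by
  rw [Int.floor_eq_iff] at h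
  obtain ⟨f1, f2⟩ := h
  have h3 : (0 : ℝ) < 3 ^ j := by positivity
  constructor
  · refine mul_le_mul_of_nonneg_left ?_ hlam.le
    rw [div_le_iff₀ h3]
    linarith [mul_comm ((3 : ℝ) ^ j) t]
  · refine mul_lt_mul_of_pos_left ?_ hlam
    rw [lt_div_iff₀ h3]
    linarith [mul_comm ((3 : ℝ) ^ j) t]

theorem GA2 : GA2_stmt := by
  intro C₀ C o lam hC₀ hC hlam A hA
  choose ε hε0 hεn hεj using GA2_eps C₀
  have hex : ∀ n : ℕ, ∃ B : Set (ℕ × ℤ × ℤ), Cov2 B {p | (o + lam * p.1, lam * (1 + p.2)) ∈ A} ∧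
      cst2 (psF C₀) B < ε n := by
    intro n
    have h1 : cont2 (psF C₀) {p | (o + lam * p.1, lam * (1 + p.2)) ∈ A} < ε n := by
      rw [hA]
      exact hε0 n
    unfold cont2 at h1
    rw [iInf_lt_iff] at h1
    obtain ⟨B, hB⟩ := h1
    rw [iInf_lt_iff] at hB
    obtain ⟨h2, h3⟩ := hB
    exact ⟨B, h2, h3⟩
  choose B hBc hBε using hex
  -- the level of the cells
  have hlev : ∀ n : ℕ, ∀ c ∈ B n, n ≤ c.1 := by
    intro n c hc
    by_contra hcon
    have h1 : psF C₀ c.1 ≤ cst2 (psF C₀) (B n) := by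
      unfold cst2
      exact ENNReal.le_tsum (f := fun c : B n => psF C₀ (c : ℕ × ℤ × ℤ).1) ⟨c, hc⟩
    have h2 := hεj n c.1 (by omega)
    exact absurd (lt_of_le_of_lt (le_trans h2 h1) (hBε n)) (lt_irrefl _)
  -- the bound
  have hle : MeasureTheory.Measure.mkMetric (gp C) A ≤ Filter.liminf (fun n : ℕ =>
      ∑' i : B n, gp C (Metric.ediam (GA2_sq o lam (i : ℕ × ℤ × ℤ)))) Filter.atTop := by
    refine MeasureTheory.Measure.mkMetric_le_liminf_tsum (β := ℕ) (ι := fun n => ↥(B n)) A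
      (fun n => ENNReal.ofReal (lam / 3 ^ n)) ?_ (fun n i => GA2_sq o lam (i : ℕ × ℤ × ℤ)) ?_ ?_
      (gp C)
    · have h1 : Filter.Tendsto (fun n : ℕ => lam / (3 : ℝ) ^ n) Filter.atTop (nhds 0) := by
        have h2 := (tendsto_pow_atTop_nhds_zero_of_lt_one (r := (1 / 3 : ℝ)) (by norm_num)
          (by norm_num)).const_mul lam
        rw [mul_zero] at h2
        refine h2.congr fun n => ?_
        rw [div_pow, one_pow]
        ring
      have h3 := ENNReal.tendsto_ofReal h1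
      rwa [ENNReal.ofReal_zero] at h3
    · refine Filter.Eventually.of_forall fun n i => ?_
      rw [GA2_diam o lam hlam]
      refine ENNReal.ofReal_le_ofReal ?_
      exact div_le_div_of_nonneg_left hlam.le (by positivity)
        (pow_le_pow_right₀ (by norm_num) (hlev n i i.2))
    · refine Filter.Eventually.of_forall fun n a ha => ?_
      have e1 : o + lam * ((a.1 - o) / lam) = a.1 := by field_simp; ring
      have e2 : lam * (1 + (a.2 / lam - 1)) = a.2 := by field_simp; ring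
      have hmem : ((a.1 - o) / lam, a.2 / lam - 1) ∈
          {p : ℝ × ℝ | (o + lam * p.1, lam * (1 + p.2)) ∈ A} := by
        show (o + lam * ((a.1 - o) / lam), lam * (1 + (a.2 / lam - 1))) ∈ A
        rw [e1, e2]
        exact ha
      obtain ⟨c, hc, hf1, hf2⟩ := hBc n _ hmem
      rw [Set.mem_iUnion]
      refine ⟨⟨c, hc⟩, ?_⟩
      obtain ⟨g1, g2⟩ := GA2_fl lam hlam _ _ _ hf1
      obtain ⟨g3, g4⟩ := GA2_fl lam hlam _ _ _ hf2
      have e3 : lam * (1 + (a.2 / lam - 1)) = lam + lam * (a.2 / lam - 1) := by ring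
      refine ⟨⟨?_, ?_⟩, ⟨?_, ?_⟩⟩
      · show o + lam * ((c.2.1 : ℝ) / 3 ^ c.1) ≤ a.1
        linarith
      · show a.1 < o + lam * (((c.2.1 : ℝ) + 1) / 3 ^ c.1)
        linarith
      · show lam * (1 + (c.2.2 : ℝ) / 3 ^ c.1) ≤ a.2
        have e4 : lam * (1 + (c.2.2 : ℝ) / 3 ^ c.1) = lam + lam * ((c.2.2 : ℝ) / 3 ^ c.1) := by ring
        linarith
      · show a.2 < lam * (1 + ((c.2.2 : ℝ) + 1) / 3 ^ c.1)
        have e4 : lam * (1 + ((c.2.2 : ℝ) + 1) / 3 ^ c.1) =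
          lam + lam * (((c.2.2 : ℝ) + 1) / 3 ^ c.1) := by ring
        linarith
  obtain ⟨J, hJ⟩ : ∃ J : ℕ, Real.log lam / (Real.log 3 - 1) ≤ J := exists_nat_ge _
  have hl3 : 0 < Real.log 3 - 1 := by linarith [GA2_log3]
  -- large levels
  have htend : Filter.Tendsto (fun j : ℕ => (C - C₀) * Real.log (j : ℝ) ^ 3) Filter.atTop
      Filter.atTop := by
    have h1 : Filter.Tendsto (fun j : ℕ => Real.log (j : ℝ)) Filter.atTop Filter.atTop :=
      Real.tendsto_log_atTop.comp tendsto_natCast_atTop_atTop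
    have h2 : Filter.Tendsto (fun j : ℕ => Real.log (j : ℝ) ^ 3) Filter.atTop Filter.atTop :=
      (Filter.tendsto_pow_atTop (by norm_num)).comp h1
    exact h2.const_mul_atTop (by linarith)
  obtain ⟨J', hJ'⟩ := Filter.eventually_atTop.1 (htend.eventually_ge_atTop (Real.log lam))
  have hev : ∀ᶠ n : ℕ in Filter.atTop,
      ∑' i : B n, gp C (Metric.ediam (GA2_sq o lam (i : ℕ × ℤ × ℤ))) ≤ (n : ℝ≥0∞)⁻¹ := by
    filter_upwards [Filter.eventually_ge_atTop (max 1 (max J J'))] with n hn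
    refine le_trans (ENNReal.tsum_le_tsum (g := fun c : B n => psF C₀ (c : ℕ × ℤ × ℤ).1)
      fun i => ?_) (le_trans (hBε n).le (hεn n))
    rw [GA2_diam o lam hlam]
    have h1 := hlev n i i.2
    refine GA2_gp C₀ C lam _ hC₀ hC hlam (by omega) ?_ (hJ' _ (by omega))
    have h2 : (J : ℝ) ≤ ((i : ℕ × ℤ × ℤ).1 : ℝ) := by
      have : J ≤ (i : ℕ × ℤ × ℤ).1 := by omega
      exact_mod_cast this
    rw [div_le_iff₀ hl3] at hJ
    exact le_trans hJ (mul_le_mul_of_nonneg_right h2 hl3.le)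
  have hlim : Filter.liminf (fun n : ℕ =>
      ∑' i : B n, gp C (Metric.ediam (GA2_sq o lam (i : ℕ × ℤ × ℤ)))) Filter.atTop ≤ 0 := by
    refine le_trans (Filter.liminf_le_liminf hev) ?_
    rw [ENNReal.tendsto_inv_nat_nhds_zero.liminf_eq]
  exact le_antisymm (le_trans hle hlim) bot_le

end Pool.Agent.ZP
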